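import Pool.Agent.H71R2.Frob.OneRel

/-!
A one-relator group with two generators whose relator is not in the commutator subgroup of the
free group and whose derived subgroup is locally free is residually finite.
-/

set_option autoImplicit false

namespace Pool.Agent.Results.MP_08a057_al.RelatorOutsideCommutator

open Pool.Agent.H71R2

theorem result :
    ∀ r : FreeGroup (Fin 2), r ∉ commutator (FreeGroup (Fin 2)) →
      (∀ H : Subgroup (PresentedGroup ({r} : Set (FreeGroup (Fin 2)))),
          H ≤ commutator (PresentedGroup ({r} : Set (FreeGroup (Fin 2)))) →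
          H.FG → IsFreeGroup H) →
      ∀ g : PresentedGroup ({r} : Set (FreeGroup (Fin 2))), g ≠ 1 →
        ∃ N : Subgroup (PresentedGroup ({r} : Set (FreeGroup (Fin 2)))),
          N.Normal ∧ N.index ≠ 0 ∧ g ∉ N := by
  intro r hr hfree g hg
  obtain ⟨t, ht⟩ := Frob.exists_t_oneRel r hr
  have hfg := Frob.fg_of_fp (PresentedGroup ({r} : Set (FreeGroup (Fin 2))))
  have h1 : Group.ResiduallyFinite (PresentedGroup ({r} : Set (FreeGroup (Fin 2)))) :=
    Lef.rf_of_lef_of_fp (Frob.lef_of_derived hfree t ht)
  obtain ⟨N, hN⟩ : ∃ N : FiniteIndexNormalSubgroup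
      (PresentedGroup ({r} : Set (FreeGroup (Fin 2)))), g ∉ N.toSubgroup := by
    by_contra hcon
    push Not at hcon
    have h2 : g ∈ ⨅ H : FiniteIndexNormalSubgroup
        (PresentedGroup ({r} : Set (FreeGroup (Fin 2)))), H.toSubgroup :=
      Subgroup.mem_iInf.2 hcon
    rw [h1.iInf_eq_bot] at h2
    exact hg (Subgroup.mem_bot.1 h2)
  exact ⟨N.toSubgroup, N.isNormal', N.isFiniteIndex'.index_ne_zero, hN⟩

end Pool.Agent.Results.MP_08a057_al.RelatorOutsideCommutator
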